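import Pool.Agent.Y7.LN.Stm

/-! Project LN (helper7), job LN-WN: numerical facts on the durations. -/

open Set Filter Topology

set_option autoImplicit false

namespace Pool.Agent.Y287.LN

open Pool.Agent.Y303.EJ (SeqE Num dl)
open Pool.Agent.Y7.LN

lemma wd_succ {η : ℝ} {lm L C ℓ : ℕ → ℝ} {B : ℕ → ℕ → ℝ} (h : SeqE η lm L C ℓ B)
    (hN : Num η lm L C ℓ) (n : ℕ) : wd lm L (n + 1) = 1 / √(lm (n + 1)) / L n := by
  have h1 : 0 < lm (n + 1) := by linarith [hN.lm1 (n + 1)]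
  have h2 : 0 < L n := by linarith [hN.L1 n]
  have h3 : 0 < √(lm (n + 1)) := Real.sqrt_pos.2 h1
  have h4 : √(lm (n + 1)) * √(lm (n + 1)) = lm (n + 1) := Real.mul_self_sqrt h1.le
  unfold wd
  rw [← h.lm_succ n, div_div, div_eq_div_iff (by positivity) (by positivity)]
  linear_combination (L n) * h4

lemma sq_one {η : ℝ} {lm L C ℓ : ℕ → ℝ} (hN : Num η lm L C ℓ) (n : ℕ) : 2 ≤ √(lm n) := by
  refine Real.le_sqrt_of_sq_le ?_
  have := hN.lm1 n
  linarith

lemma wd_half {η : ℝ} {lm L C ℓ : ℕ → ℝ} {B : ℕ → ℕ → ℝ} (h : SeqE η lm L C ℓ B)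
    (hN : Num η lm L C ℓ) (n : ℕ) : wd lm L (n + 1) ≤ wd lm L n / 2 := by
  have h2 : 0 < L n := by linarith [hN.L1 n]
  rw [wd_succ h hN]
  unfold wd
  rw [div_right_comm (√(lm n))]
  refine div_le_div_of_nonneg_right ?_ h2.le
  have h3 := sq_one hN (n + 1)
  have h4 := sq_one hN n
  rw [div_le_iff₀ (by linarith)]
  nlinarith

lemma wd_pos {η : ℝ} {lm L C ℓ : ℕ → ℝ} (hN : Num η lm L C ℓ) (n : ℕ) : 0 < wd lm L n := by
  have h2 : 0 < L n := by linarith [hN.L1 n]
  have h4 := sq_one hN n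
  unfold wd
  positivity

lemma sum_bd {η : ℝ} {lm L C ℓ : ℕ → ℝ} {B : ℕ → ℕ → ℝ} (h : SeqE η lm L C ℓ B)
    (hN : Num η lm L C ℓ) (n k : ℕ) :
    ∑ m ∈ Finset.Ico n (n + k), wd lm L m ≤ 2 * wd lm L n - 2 * wd lm L (n + k) := by
  induction k with
  | zero => simp
  | succ k ih =>
    rw [← add_assoc, Finset.sum_Ico_succ_top (by omega)]
    have h1 := wd_half h hN (n + k)
    linarith

theorem t_WN : S_WN := by
  intro η lm L C ℓ B h hN
  have hhalf := wd_half h hN
  refine ⟨wd_pos hN, ?_, ?_, ?_, ?_, ?_⟩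
  · intro i n hin
    have h2 : 0 < L n := by linarith [hN.L1 n]
    have h3 := sq_one hN (n + 1)
    have h4 : L i ≤ L n := hN.Lmono hin
    rw [wd_succ h hN, ← mul_div_assoc, div_le_iff₀ h2, mul_comm]
    exact mul_le_mul_of_nonneg_left h4 (by positivity)
  · intro N n
    have h1 := wd_pos hN n
    rcases le_total N n with hNn | hNn
    · unfold sN
      rw [Finset.Ico_eq_empty_of_le hNn, Finset.sum_empty]
      linarith
    · obtain ⟨k, rfl⟩ := Nat.exists_eq_add_of_le hNn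
      have h2 := sum_bd h hN n k
      have h3 := wd_pos hN (n + k)
      unfold sN
      linarith
  · have hb : ∀ n, wd lm L n ≤ wd lm L 0 * (1 / 2) ^ n := by
      intro n
      induction n with
      | zero => simp
      | succ n ih =>
        have h1 := hhalf n
        calc wd lm L (n + 1) ≤ wd lm L n / 2 := h1
          _ ≤ wd lm L 0 * (1 / 2) ^ n / 2 := by linarith
          _ = wd lm L 0 * (1 / 2) ^ (n + 1) := by ring
    have ht : Tendsto (fun n : ℕ => wd lm L 0 * (1 / 2 : ℝ) ^ n) atTop (𝓝 0) := by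
      have := (tendsto_pow_atTop_nhds_zero_of_lt_one (r := (1 / 2 : ℝ)) (by norm_num)
        (by norm_num)).const_mul (wd lm L 0)
      rwa [mul_zero] at this
    exact squeeze_zero (fun n => (wd_pos hN n).le) hb ht
  · intro n
    have h2 : 0 < L n := by linarith [hN.L1 n]
    have h3 := sq_one hN n
    unfold wd
    rw [← div_div]
    exact div_le_div_of_nonneg_right (by linarith) h2.le
  · intro n
    have h1 : 0 < lm n := by linarith [hN.lm1 n]
    have h2 : 0 < √(lm n) := Real.sqrt_pos.2 h1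
    have h3 : √(lm n) ^ 2 = lm n := Real.sq_sqrt h1.le
    have h4 : (10 ^ 15 : ℝ) ^ 2 ≤ (dl η n ^ 2 * √(lm n)) ^ 2 := by
      rw [mul_pow, h3]
      have h5 := h.lm_big n
      calc (10 ^ 15 : ℝ) ^ 2 = 10 ^ 30 := by norm_num
        _ ≤ dl η n ^ 4 * lm n := h5
        _ = (dl η n ^ 2) ^ 2 * lm n := by ring
    have h5 : (10 ^ 15 : ℝ) ≤ dl η n ^ 2 * √(lm n) :=
      (pow_le_pow_iff_left₀ (by positivity) (by positivity) two_ne_zero).1 h4
    rw [div_le_div_iff₀ h2 (by positivity), one_mul]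
    exact h5

end Pool.Agent.Y287.LN
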